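import Mathlib
import Pool.Agent.H926.T.Sat7

/-!
# A common `ℚ`-form of the `ℓ`-adic monodromy groups, for all `ℓ` and with all components, for the
# abelian varieties built from factors of one of dimension at most seven

Let `X` be an abelian variety of any dimension over a number field `F ⊂ ℂ` (or over a finitely generated
subfield of `ℂ`). We assume that there is a complex abelian variety `A` of dimension at most seven such
that each simple factor of `X` over `ℂ` (each simple abelian variety with a homomorphism to `X` with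
finite kernel) is a factor of `A`. For instance `X` can be any form of any product of powers of the
factors of `A`. There is one condition: no simple factor of `A` of dimension four or six has `ℤ` as its
endomorphism ring. All other types of endomorphism algebras are allowed, with complex multiplication or
not.

**Theorem.** Let `G` be the algebraic group over `ℚ` of the similitudes of `(V, ψ)`, `V = H_1(X(ℂ), ℚ)`,
which fix all Hodge tensors (the Mumford–Tate group of `X`, which is connected and reductive), and for a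
finite extension `K` of `F` let `G_K` be the algebraic group over `ℚ` of those which fix the Hodge
tensors defined over `K`. Then **for all prime numbers `ℓ` and all finite extensions `K` of `F`**

* `G` over `ℚ_ℓ` is the identity component of `G^{alg}_{ℓ,K}`,
* `G_K` over `ℚ_ℓ` is the whole group `G^{alg}_{ℓ,K}`.

So also the groups `G^{alg}_{ℓ,K}` themselves, with their components, have a common form over `ℚ`, and
no prime number has to be excluded. The equalities are equalities of group schemes: for the points with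
values in any commutative `ℚ_ℓ`-algebra `R`.

The groups are given by tensors (`Pool.Agent.Q43.ST.Defs`). `points S` is the algebraic group over `ℚ`
defined by the rational tensors in `S`: the pairs `(u, c)` of an automorphism of `R ⊗ V` and a factor `c`
such that `Ψ (u v₁, …, u v_{2m}) = c ^ m Ψ (v₁, …, v_{2m})` for all `m` and all forms in `2 m` variables
in `S` (the polarization `ψ` is a Hodge tensor for `m = 1`, so that `u` is a similitude and `c` is its
multiplier). `monodromy` is the group of the pairs which fix all elements of the spaces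
`(V_ℓ*)^{⊗ 2 m}(m)` that are fixed by the Galois group `Δ` of `K`, and `identityComponent` the group of
those which fix all elements that are fixed by a subgroup of finite index of `Δ`. By Faltings
`G^{alg}_{ℓ,K}` and its identity component are reductive, so they are determined by their invariant
tensors (the tensors of weight zero are of this form by the Weil pairing), which are these.

The hypotheses on the Galois representations are the known properties of the Tate modules for all `ℓ`
(`IsTateModule`: Weil pairing, Faltings, Hodge–Tate decomposition, Serre, Pink) and the theorem of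
Deligne that Hodge classes on abelian varieties are absolute Hodge classes (`HodgeIsAbsolute`): the
Galois group acts on the rational Hodge tensors, compatibly with its action on the `ℓ`-adic realizations
for all `ℓ`, and a subgroup of finite index acts trivially on each of them.

The proof. All Tate tensors are combinations of Hodge tensors (`Pool.Agent.H926.T.mt7`, see
`MP_b8862a_ag.FactorsOfDimensionSeven`), so that the identity component is the Mumford–Tate group; the
tensors fixed by `Δ` are combinations of fixed Hodge tensors by Galois descent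
(`MP_d61fbb_ag.FactorsOfDimensionSeven`), and which Hodge tensors are fixed does not depend on `ℓ` by
Deligne's theorem.
-/

namespace Pool.Agent.Results.MP_e965d0_ag.FactorsOfDimensionSeven

open Module TensorProduct
open Pool.Agent.Y90 (AV)
open Pool.Agent.Y90.St (IsHom IsPolarization)
open Pool.Agent.R915 (IsFactor)
open Pool.Agent.Y224.TS.St (IsTateModule)
open Pool.Agent.H204R3.GP (IsHodgeTensor)
open Pool.Agent.Q43.ST (Realizes galoisTensors tannakian monodromy)

section definitions

variable {H T Γ : Type} [AddCommGroup H] [Module ℚ H] [AddCommGroup T] [Module ℂ T] [Group Γ]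

/-- All factors of `A` of dimensions four and six have endomorphisms besides the scalars. -/
def NoTrivialEndomorphisms (A : AV) : Prop :=
  ∀ Y, IsFactor Y A → finrank ℂ Y.T = 4 ∨ finrank ℂ Y.T = 6 →
    ∃ f, IsHom Y.per Y.per f ∧ ∀ c : ℚ, f ≠ c • 1

/-- The `R`-points (`R` a commutative algebra over the extension `k` of `ℚ`) of **the algebraic group
over `ℚ` defined by the rational tensors `S`**. -/
def points (S : ∀ m : ℕ, Set (MultilinearMap ℚ (fun _ : Fin m × Fin 2 => H) ℚ))
    (k : Type) [Field k] [CharZero k] (R : Type) [CommRing R] [Algebra k R] :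
    Set (((R ⊗[k] (k ⊗[ℚ] H)) ≃ₗ[R] (R ⊗[k] (k ⊗[ℚ] H))) × Rˣ) :=
  tannakian (fun m => {φ | ∃ ψ ∈ S m, Realizes φ ψ}) R

/-- The `R`-points of **the identity component of the `ℓ`-adic monodromy group** `G^{alg}_{ℓ,K}`: the
automorphisms which fix all tensors that are invariant under a subgroup of finite index of the Galois
group `Δ` of `K`. -/
def identityComponent {k : Type} [Field k] [CharZero k] (ρ : Representation k Γ (k ⊗[ℚ] H))
    (χ : Γ →* k) (Δ : Subgroup Γ) (R : Type) [CommRing R] [Algebra k R] :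
    Set (((R ⊗[k] (k ⊗[ℚ] H)) ≃ₗ[R] (R ⊗[k] (k ⊗[ℚ] H))) × Rˣ) :=
  tannakian (fun m => {φ | ∃ Δ' : Subgroup Γ, Δ'.FiniteIndex ∧ Δ' ≤ Δ ∧ φ ∈ galoisTensors ρ χ Δ' m}) R

/-- The element `s` of the Galois group transforms the rational tensor `ψ` into the rational tensor
`ψ'`, in the `ℓ`-adic realizations for **all** prime numbers `ℓ`. -/
def Transforms (ρ : ∀ (ℓ : ℕ) [Fact ℓ.Prime], Representation ℚ_[ℓ] Γ (ℚ_[ℓ] ⊗[ℚ] H))
    (χ : ∀ (ℓ : ℕ) [Fact ℓ.Prime], Γ →* ℚ_[ℓ]) (s : Γ) {m : ℕ}
    (ψ ψ' : MultilinearMap ℚ (fun _ : Fin m × Fin 2 => H) ℚ) : Prop :=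
  ∀ (ℓ : ℕ) [Fact ℓ.Prime] (φ φ' : MultilinearMap ℚ_[ℓ] (fun _ : Fin m × Fin 2 => ℚ_[ℓ] ⊗[ℚ] H) ℚ_[ℓ]),
    Realizes φ ψ → Realizes φ' ψ' → ∀ v, φ (fun l => ρ ℓ s (v l)) = χ ℓ s ^ m * φ' v

/-- **Deligne's theorem** that Hodge classes on abelian varieties are absolute Hodge classes: the Galois
group transforms the Hodge tensors into Hodge tensors, and each of them is fixed by a subgroup of finite
index. -/
def HodgeIsAbsolute (per : H →+ T)
    (ρ : ∀ (ℓ : ℕ) [Fact ℓ.Prime], Representation ℚ_[ℓ] Γ (ℚ_[ℓ] ⊗[ℚ] H))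
    (χ : ∀ (ℓ : ℕ) [Fact ℓ.Prime], Γ →* ℚ_[ℓ]) : Prop :=
  ∀ (m : ℕ) (ψ : MultilinearMap ℚ (fun _ : Fin m × Fin 2 => H) ℚ), IsHodgeTensor per ψ →
    (∀ s, ∃ ψ', IsHodgeTensor per ψ' ∧ Transforms ρ χ s ψ ψ') ∧
      ∃ Δ : Subgroup Γ, Δ.FiniteIndex ∧ ∀ s ∈ Δ, Transforms ρ χ s ψ ψ

/-- All Hodge tensors of `X`; the algebraic group which they define is the Mumford–Tate group. -/
def hodgeTensors (per : H →+ T) (m : ℕ) :
    Set (MultilinearMap ℚ (fun _ : Fin m × Fin 2 => H) ℚ) := {ψ | IsHodgeTensor per ψ}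

/-- The Hodge tensors of `X` which are defined over the finite extension `K` with the Galois group
`Δ`. -/
def hodgeTensorsOver (per : H →+ T)
    (ρ : ∀ (ℓ : ℕ) [Fact ℓ.Prime], Representation ℚ_[ℓ] Γ (ℚ_[ℓ] ⊗[ℚ] H))
    (χ : ∀ (ℓ : ℕ) [Fact ℓ.Prime], Γ →* ℚ_[ℓ]) (Δ : Subgroup Γ) (m : ℕ) :
    Set (MultilinearMap ℚ (fun _ : Fin m × Fin 2 => H) ℚ) :=
  {ψ | IsHodgeTensor per ψ ∧ ∀ s ∈ Δ, Transforms ρ χ s ψ ψ}

end definitions

/-- **A common `ℚ`-form of the `ℓ`-adic monodromy groups.** For the abelian varieties `X` over number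
fields (given as complex abelian varieties with a polarization `E` and the representations `ρ ℓ` of the
Galois group `Γ` on the Tate modules `ℚ_ℓ ⊗ H_1(X, ℚ)`, with the known properties of the Tate modules;
`χ ℓ` is the cyclotomic character), all of whose simple factors over `ℂ` are factors of a complex abelian
variety `A` of dimension at most seven without simple factors of dimension four or six with only the
trivial endomorphisms: for all prime numbers `ℓ` and all finite extensions `K` (with the Galois groups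
`Δ`), the identity component of the `ℓ`-adic monodromy group is the Mumford–Tate group over `ℚ_ℓ`, and
the `ℓ`-adic monodromy group is the algebraic group over `ℚ` defined by the Hodge tensors over `K`. -/
theorem result (A : AV) (h7 : finrank ℂ A.T ≤ 7) (hA : NoTrivialEndomorphisms A)
    (X : AV) (hX : ∀ Y, IsFactor Y X → IsFactor Y A)
    (E : X.H → X.H → ℚ) (hE : IsPolarization X.per E) {Γ : Type} [Group Γ]
    (ρ : ∀ (ℓ : ℕ) [Fact ℓ.Prime], Representation ℚ_[ℓ] Γ (ℚ_[ℓ] ⊗[ℚ] X.H))
    (χ : ∀ (ℓ : ℕ) [Fact ℓ.Prime], Γ →* ℚ_[ℓ])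
    (hρ : ∀ (ℓ : ℕ) [Fact ℓ.Prime], ∃ _ : Algebra ℚ_[ℓ] ℂ, Algebra.IsAlgebraic ℚ_[ℓ] ℂ ∧
      IsTateModule X.per E (ρ ℓ) (χ ℓ))
    (hD : HodgeIsAbsolute X.per ρ χ) (Δ : Subgroup Γ) (hΔ : Δ.FiniteIndex)
    (ℓ : ℕ) [Fact ℓ.Prime] (R : Type) [CommRing R] [Algebra ℚ_[ℓ] R] :
    identityComponent (ρ ℓ) (χ ℓ) Δ R = points (hodgeTensors X.per) ℚ_[ℓ] R ∧
      monodromy (ρ ℓ) (χ ℓ) Δ R = points (hodgeTensorsOver X.per ρ χ Δ) ℚ_[ℓ] R := by
  classical
  obtain ⟨_, _, hT⟩ := hρ ℓ
  have hcard : ∀ m : ℕ, Nat.card (Fin m × Fin 2) = 2 * m := fun m => by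
    rw [Nat.card_prod, Nat.card_fin, Nat.card_fin, mul_comm]
  constructor
  · refine Pool.Agent.Q43.ST.tannakian_eq ((finBasis ℚ X.H).baseChange ℚ_[ℓ]) (fun m φ hφ => ?_)
      (fun m φ hφ => ?_) R
    · obtain ⟨ψ, hψ, hr⟩ := hφ
      obtain ⟨Δ', hΔ', hf⟩ := (hD m ψ hψ).2
      exact ⟨Δ' ⊓ Δ, inferInstance, inf_le_right, fun s hs v => hf s hs.1 ℓ φ φ hr hr v⟩
    · obtain ⟨Δ', hΔ', -, hg⟩ := hφ
      obtain ⟨N, c, f, h1, h2⟩ := Pool.Agent.H926.T.mt7 A X h7 hA hX hE hT (hcard m) φ
        ⟨Δ', hΔ', fun g hg' v => hg g hg' v⟩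
      exact Pool.Agent.H926.T.comb_of_sum h1 h2
  · have hD' : Pool.Agent.Q43.ST.GaloisActsOnHodge X.per (ρ ℓ) (χ ℓ) := by
      intro s m ψ φ hψ hr
      obtain ⟨ψ', h1, h2⟩ := (hD m ψ hψ).1 s
      exact ⟨ψ', Pool.Agent.Q43.ST.exR (finBasis ℚ X.H) ℚ_[ℓ] ψ', h1,
        Pool.Agent.Q43.ST.exR_realizes (finBasis ℚ X.H) ψ',
        h2 ℓ φ _ hr (Pool.Agent.Q43.ST.exR_realizes (finBasis ℚ X.H) ψ')⟩
    rw [(Pool.Agent.H926.T.st7 A X h7 hA hX hE hT hD' Δ hΔ R).1]
    unfold Pool.Agent.Q43.ST.motivic points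
    congr 1
    funext m
    refine Set.Subset.antisymm (fun φ hφ => ?_) fun φ hφ => ?_
    · obtain ⟨hg, ψ, hψ, hr⟩ := hφ
      refine ⟨ψ, ⟨hψ, fun s hs => ?_⟩, hr⟩
      obtain ⟨ψ', h1, h2⟩ := (hD m ψ hψ).1 s
      have h3 : ψ' = ψ := by
        ext v
        have h4 := h2 ℓ φ _ hr (Pool.Agent.Q43.ST.exR_realizes (finBasis ℚ X.H) ψ')
          (fun l => (1 : ℚ_[ℓ]) ⊗ₜ[ℚ] v l)
        rw [hg s hs, Pool.Agent.Q43.ST.exR_realizes (finBasis ℚ X.H) ψ' v, hr v] at h4
        have h5 : χ ℓ s ^ m ≠ 0 := by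
          refine pow_ne_zero _ fun h6 => ?_
          have h7 : χ ℓ s * χ ℓ s⁻¹ = 1 := by rw [← map_mul, mul_inv_cancel, map_one]
          rw [h6, zero_mul] at h7
          exact zero_ne_one h7
        exact (Rat.cast_injective (mul_left_cancel₀ h5 h4)).symm
      rwa [h3] at h2
    · obtain ⟨ψ, ⟨hψ, hs⟩, hr⟩ := hφ
      exact ⟨fun s hs' v => hs s hs' ℓ φ φ hr hr v, ψ, hψ, hr⟩

end Pool.Agent.Results.MP_e965d0_ag.FactorsOfDimensionSeven
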