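import Mathlib
import Pool.Agent.H395.Local.MT
import Pool.Graph.R_seed8.TH170.FT.CommonDefs

/-!
# Common `ℚ`-form of the `ℓ`-adic monodromy groups of abelian varieties: one Frobenius element,
and local conditions on the classes of the embeddings of its CM fields

**Classes.** Let `K i` (`i` in a finite set) be CM fields, `X` the set of all complex embeddings
of all fields `K i` and `x ↦ x̄` the complex conjugation. Two elements `x`, `y` of `X` are
*flipped* if some automorphism of `ℂ` maps one of them to itself and the other one to its
conjugate, or maps `x` to `y` and `y` to `x̄`. The classes are those of the equivalence relation
generated by the pairs which are not flipped (`SameClass`); a class is stable under the complex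
conjugation. For the typical family of CM fields each class is a pair `x`, `x̄`. The fields of the
family are arbitrary: fields which are not independent of each other can have embeddings in the
same class.

**Types.** Let `p` be a prime number, `π i` a Weil number in `K i` all powers of which generate `K
i`. For `x : K i → ℂ` let `q(x)` be twice the difference of the slope of `x(π i)` and the middle
slope (`IsDeviation`). Suppose that every field `K i` has **one** embedding whose class is of one
of the following types (`LocalType`, `LocalTypes`); the type may depend on `i`.

* *Dominated*: for each field with an embedding in the class there is an embedding `z` of this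
  field such that `2 |q(z)| > ∑ |q(w)|`, the sum over the `w ≠ z, z̄` **in the class of `z`**, not
  over all embeddings; or, for some prime number `ℓ`, such that `|q(z)|_ℓ > |q(w)|_ℓ` for these
  `w`. Here one can use arbitrary positive weights of the fields (`DominatedType`).
* *Unitary*: the class consists of translates of `x`, it is the union of a block `R` and of its
  conjugate, `R` has `r ^ k` elements, `r` a prime number, `∑ q ≠ 0` over `R`, and `q = α n + β`
  on `R` with integers `n` whose sum over `R` is not divisible by `r` (`UnitaryType`).
* *Primitive*: the class consists of translates of `x` and has `b` pairs, where `b` is one, or
  prime, or `b = [K i : F]` for a CM subfield `F` such that the automorphisms of `ℂ` act doubly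
  transitively on the extensions of an embedding of `F`; and for the CM subfields `F` with `[K i :
  F] = b` the norm of `π i` to `F` is not supersingular (`PrimitiveType`).
* *Irreducible*: the rational functions on the class which change their sign under complex
  conjugation are an irreducible representation of the automorphisms of `ℂ` which preserve the
  class (`IrreducibleType`).
* Two types that are copied from the library, `OddType` (the class has one pair, a prime number of
  pairs, an odd number of pairs which are permuted doubly transitively, or a power of two and an
  odd permutation; the deviations are odd multiples of one number) and `SumType` (the class has `r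
  ^ k` pairs, `r` prime, and the `q(w)` are proportional to integers whose sums over the half
  systems of the class are not divisible by `r`).

**The theorem** (`CommonFormFor`). Let `A` be an abelian variety over a number field, of any
dimension and with arbitrary endomorphisms, which has good reduction at some place `v`, with a
residue field of `p ^ a` elements. Suppose that the characteristic polynomial of the Frobenius
element at this **one** place is the product of the minimal polynomials of Weil numbers `π i` for
`p ^ a` in `K i` which satisfy the hypothesis `LocalTypes` (`HasFrobenius`, for all `ℓ ≥ ℓ₀`,
where `ℓ₀ > p`); so `dim A` is the sum of the numbers `[K i : ℚ] / 2`. Then for all prime numbers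
`ℓ ≥ ℓ₀` and all `m` **each `ℓ`-adic Tate class in `(H^1)^{⊗ 2 m}(m)` is a linear combination,
with coefficients in `ℚ_ℓ`, of rational forms on `W = H_1(A, ℚ)` which are Tate classes for all
prime numbers `≥ ℓ₀` and products of Hodge classes of degree two** (`HasCommonForm`, library). The
identity component of the Zariski closure of the image of the Galois group is reductive and
contains the homotheties; it is the group of the elements of `GSp` which fix all Tate classes. So
there is an algebraic group over `ℚ` (the identity component of the Lefschetz group) which becomes
the connected monodromy group over `ℚ_ℓ` for all `ℓ ≥ ℓ₀`; this translation is the one of the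
library and it is not formalized.

In the formal statement (library) `per` is the inclusion of `W` in the tangent space, `ω₀` the
form given by a polarization, and `D ℓ` (`GaloisData`) consists of the action of the Galois group
on the rational Tate module `ℚ_ℓ ⊗ W`, the cyclotomic character, the Weil pairing, the theorems of
Faltings on endomorphisms and on semisimplicity (`IsRealization`) and the theorem of Deligne that
Hodge classes are Tate classes.

**What was known.** A common `ℚ`-form exists if the Mumford-Tate conjecture holds: elliptic
curves, prime dimension (Tankeev, Ribet, Serre, Chi), `End A = ℤ` in odd and in many other
dimensions (Serre, Pink), reduction of K3 type at one place (Zarhin). In the library there are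
criteria by Frobenius elements at one or several places (`GoodPlaces`, `SeparatedFrobenius`,
`OneInequality`), and almost all slope types of typical CM fields (`TypicalFields`). New here: the
dominated types (inside of a class, usual or `ℓ`-adic absolute value, with weights), the unitary
type, the primitive and irreducible types for the classes defined by flips, and their combination
for arbitrary families of fields, which need not be independent of each other. The same condition
is used for the Mumford-Tate conjecture in `MP_33b3f9_ag.LocalClassTypes`.

**Examples** (proved in `Pool.Agent.H395.Local.criteria`). For a single CM field `E` and a Weil
number `π` of weight `m` all powers of which generate `E` the hypothesis `LocalTypes` is satisfied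
if `4 |s(ψ) - m / 2| > ∑ |s(φ) - m / 2|` for one embedding `ψ`, the sum over all embeddings, `s`
the slope; and also if `E` contains an imaginary quadratic field `F` such that `[E : F] = r ^ k`
is a power of a prime number `r`, and `π` is ordinary and the number `s` of the embeddings which
agree with one embedding on `F` and at which `π` is a unit is not divisible by `r`, `2 s ≠ r ^ k`
(multiplication by `F` of signature `(s, r ^ k - s)`).

**The proof.** A multiplicative relation between the conjugates of the `π i` gives a function `c`
on `X` with integral values, `c(x̄) = - c(x)` and `∑ c(x) q(τ x) = 0` for all `τ`. The correlation
of two flipped elements vanishes, so that the sum can be restricted to any class (library). One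
has to show that `c = 0` on the class. Dominated type: one moves an element of the class (and of
its translates) where `|c| / t` has its largest value, for the usual or the `ℓ`-adic absolute
value, to the element `z`, and compares the absolute values of the terms. Unitary type: since `∑ q
≠ 0` over `R`, the sum of the values of `c` over `R` is zero, and so `∑ c(x) n(τ x) = 0` for all
`τ` which preserve `R`. If the lattice of these `c` is not zero it contains an element which is
not divisible by `r` and is invariant modulo `r` under a Sylow `r`-subgroup of the group on `R`;
this subgroup is transitive on `R`, hence `c` is constant modulo `r` and `r ∣ ∑ n`. Primitive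
type: if `b` is prime, an element of a Sylow subgroup has two orbits of length `b` on the class,
exchanged by the conjugation, and the cyclotomic polynomial is irreducible. So either all
translates of `q` agree at two different elements of the class, and then a power of `π i` does not
generate `K i`; or the sums of `q` over the translates of the orbit are zero, the orbit is a block
that belongs to a CM subfield `F` with `[K i : F] = b`, and the norm of `π i` to `F` is
supersingular (Kronecker). The doubly transitive case is similar. Irreducible type: clear, as `q`
does not vanish on all translates.
-/

set_option autoImplicit false

namespace Pool.Agent.Results.MP_e965d0_ag.LocalClassTypes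

open NumberField Module Pool.Agent.TH170 Pool.Agent.H395.Local

/-- The common `ℚ`-form for all abelian varieties with a Frobenius element, at a place with `p ^ a`
elements in the residue field, whose characteristic polynomial is the product of the minimal
polynomials of the Weil numbers `π i` (for all prime numbers `ℓ ≥ ℓ₀`). -/
def CommonFormFor (p a : ℕ) {I : Type} [Fintype I] {K : I → Type} [∀ i, Field (K i)]
    [∀ i, NumberField (K i)] (π : ∀ i, K i) : Prop :=
  ∀ (W T Γ : Type) [AddCommGroup W] [Module ℚ W] [FiniteDimensional ℚ W] [AddCommGroup T]
    [Module ℂ T] [Group Γ] (per : W →+ T) (ω₀ : W →ₗ[ℚ] W →ₗ[ℚ] ℚ)
    (D : ∀ (ℓ : ℕ) [Fact ℓ.Prime], FT.GaloisData per ω₀ Γ ℓ) (ℓ₀ : ℕ),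
    (∀ (ℓ : ℕ) [Fact ℓ.Prime], ℓ₀ ≤ ℓ → FT.HasFrobenius (D ℓ).ρ (D ℓ).χ p a π) →
      FT.HasCommonForm D ℓ₀

/-- **Common `ℚ`-form of the `ℓ`-adic monodromy groups of the abelian varieties with one Frobenius
element whose Weil numbers have classes of local types.** -/
theorem result (p : ℕ) [Fact p.Prime] (a : ℕ) (ha : 0 < a) (I : Type) [Fintype I] (K : I → Type)
    [∀ i, Field (K i)] [∀ i, NumberField (K i)] [∀ i, IsCMField (K i)] (π : ∀ i, K i)
    (hint : ∀ i, IsIntegral ℤ (π i))
    (hw : ∀ i, π i * IsCMField.complexConj (K i) (π i) = (p : K i) ^ a)
    (hloc : LocalTypes p (fun _ => a) π) : CommonFormFor p a π :=
  fun _ _ _ _ _ _ _ _ _ _ _ D ℓ₀ hF => FT.hasCommonForm_of D ℓ₀ fun ℓ _ hℓ =>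
    mumfordTate ha hint hw hloc (D ℓ).realization (hF ℓ hℓ)

end Pool.Agent.Results.MP_e965d0_ag.LocalClassTypes
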