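import Mathlib
import Pool.Agent.H943.KT.Grp

/-!
# The common `ℚ`-form of the monodromy groups at all points of simple Shimura varieties

Let `A` be an abelian variety over a number field, embedded in the field of complex numbers. Suppose
that over `ℂ` it is, up to isogeny, the product of abelian varieties `A i` with actions of division
algebras `D i` of degree `n i` over their centres, and let `F i` be a CM field contained in the centre
of `D i`. Then `dim (A i) = [F i : ℚ] (n i) (N i) / 2` for some `N i`, and for each embedding `τ` of
`F i` in `ℂ` the field `F i` acts through `τ` on a subspace of dimension `n i * t i τ` of the tangent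
space of `A i`; we have `t i τ + t i τ' = N i` if `τ'` is the complex conjugate of `τ`. We assume that
`A i` is simple as an abelian variety with an action of `D i`. **Nothing else is assumed on the `A i`
and their endomorphism algebras: they are not supposed to be generic in any sense, they may be
simple or not simple, of CM type or not.** The conditions on the factors and on the independence of
the factors are stated below.

Let `V = H_1(A, ℚ)` with the Riemann form `ψ`, and let `G` be the algebraic group over `ℚ` of the
similitudes of `ψ` **which commute with all endomorphisms of `A`** over `ℂ` (the Lefschetz group). The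
endomorphism algebras of the simple factors are of type IV, so `G` is over the algebraic closure a
product of general linear groups, one for each pair of conjugate places: a connected reductive
group. We prove that `G` is the common `ℚ`-form: for **all** prime numbers `ℓ`

1. the space of the Tate tensors in `2 n` variables on `V_ℓ` (on which a subgroup of finite index of
   the Galois group acts through the `n`-th power of the cyclotomic character) is spanned by the
   extensions of the rational tensors `ψ(a₁ x₁, y₁) ⋯ ψ(a_n x_n, y_n)`, `a_l ∈ End(A)`, where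
   `x₁, y₁, ..., x_n, y_n` are the variables in any order; these do not depend on `ℓ`;
2. an automorphism `x` of `V_ℓ` multiplies all Tate tensors by the powers `c ^ n` of a scalar `c` if
   and only if it is in `G(ℚ_ℓ)` with multiplier `c`.

Since the identity component of the Zariski closure of the image of the Galois group is reductive
(Faltings) and contains the homotheties (Bogomolov), it is the group which preserves the Tate
tensors in the sense of (2), and (1) says that this algebraic group is `G` over `ℚ_ℓ`. By Deligne it
is contained in the Mumford-Tate group, which is contained in `G`. So all these groups are equal,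
and the Mumford-Tate conjecture is true for `A`.

**The factors.** Either `N i ≥ 3` and one of the conditions (a), (b), (c) is true, or `N i = 1` and
`t i` is a nondegenerate CM type (for instance, `A i` is an elliptic curve with complex
multiplication).

* (a) For one embedding `τ₀` the number `t i τ₀` is prime to `N i`, and `N i` is a power of a prime
  number or `t i τ₀ ≤ 2`, and `t i τ` is equal to `0` or to `N i` for all `τ` different from `τ₀` and
  its complex conjugate (the signature is definite at all places except one).
* (b) `N i` is a power of an odd prime number `p`, and `t i τ` is divisible by `p` except for one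
  pair of conjugate embeddings.
* (c) More generally, `N i` is a power of an odd prime number `p`, and the translates of `t i` modulo
  `p` by the automorphisms of `ℂ` separate the odd functions: each function `L` on the set of the
  embeddings with values in `ℤ / p` such that `L τ' = - L τ` and `∑ τ, t i (σ τ) L τ = 0` for all
  `σ` is zero.

**The independence of the factors.** The numbers `N i` are pairwise coprime or powers of the same
odd prime number, and one of the following conditions is satisfied.

* There is only one factor, and `N` is prime to the degree of the Galois closure of `F` over `F`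
  (there is no condition if `F` is a Galois extension of `ℚ`).
* The `F i` are imaginary quadratic fields, pairwise not isomorphic, and the `N i` are odd. So we
  have for example all products of powers of simple abelian varieties of odd prime power dimensions
  `N i` with multiplication by pairwise different imaginary quadratic fields and signatures prime to
  `N i`.
* In general: `N i` is prime to the degree over `F i` of the Galois closure of the compositum of all
  the `F k`; the translates of `t`, as a function on the disjoint union of the sets of the
  embeddings of the `F i`, separate the complex odd functions; and if `p` divides two of the `N i`,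
  then the translates of `t` modulo `p` separate the odd functions modulo `p` on the union of the sets
  of the embeddings of the `F i` for which `p` divides `N i`.

The condition of simplicity holds in the following two cases.

* The dimension of `D i` over `ℚ` is `2 dim (A i)`: then the rational homology of `A i` is a vector
  space of dimension one over `D i`. These abelian varieties are parametrized by the simple Shimura
  varieties of Kottwitz and Harris-Taylor (of fake unitary groups), projective varieties of
  arbitrarily large dimensions. The theorem applies to all their points over number fields (and over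
  finitely generated fields), special or not. In
  particular (a) contains **all points of all Shimura varieties of Harris and Taylor** with
  `dim (A i) ≥ 3 (n i)`. Here the centre of `D i` is the compositum of an imaginary quadratic field `K`
  and a totally real field `F'`, and the signature is `(1, n i - 1)` at one real place of `F'` and
  `(0, n i)` at the others. One takes `F i = K`; then `N i = dim (A i) / n i`, and `K` acts on the
  tangent space with the multiplicities `n i` and `dim (A i) - n i`, that is, `t i` has the values `1`
  and `N i - 1`. If the signs at the definite places are arbitrary, then one takes the centre for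
  `F i`, and the condition is that `F i` is a Galois extension of `ℚ`, or that `N i = n i` is prime to
  the degree of its Galois closure over `F i`.
* `A i` is simple over `ℂ`: for instance `D i = F i`, `n i = 1`, all simple abelian varieties of
  dimension `N` with multiplication by an imaginary quadratic field of signature `(t, N - t)`, where
  `t` is prime to `N`, and `N` is a power of a prime number or `t ≤ 2`; and all simple abelian
  varieties of dimension `[F : ℚ] N / 2` with multiplication by `F` with one indefinite place.

The abelian varieties are given by their period matrices `Z`: `A = ℂ ^ g / (ℤ ^ g + Z ℤ ^ g)`, where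
`Z` is symmetric with positive definite imaginary part (so `A` is principally polarized; each
abelian variety is isogenous to such a variety over a finite extension, and all the conditions and
the conclusion are invariant under isogeny and finite extensions). The factors of `A` are given by
the idempotent endomorphisms. The properties of the Tate module which are used (`IsTateModule`: the
Weil pairing, the theorem of Faltings, the Hodge-Tate decomposition, the theorem of Serre and Pink
on the generation of the Lie algebra) are known theorems, in the formulation of the library module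
`Pool.Agent.Y224.TS.Stm`.

The proof. The relative signature of `A` (with respect to the centre of its endomorphism algebra) is
determined as in `MP_e12fcd_ag.SimpleShimuraVarieties` (same run), where it is shown that it is
coprime, separated and nondegenerate, so that all Hodge classes on the powers of `A` are combinations
of products of divisor classes. For the Tate classes we use the comparison of the Lie algebra
generated by the Hodge-Tate elements with the Lie algebra of the Mumford-Tate group from
`Pool.Agent.Y91.L` and `Pool.Agent.Y224.TS` (library, results `WeilClassesGenerateTate`): a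
submodule of the homology which is irreducible for the second Lie algebra is irreducible for the
first one, contains elements of rank one if the relative signature is coprime at some place, and
different submodules are not related by twists if the signature is separated. So each Tate tensor on
`A` is a combination of Hodge tensors, which we apply to the restrictions of the Tate classes on
`A ^ k` to the factors.
-/

set_option autoImplicit false

namespace Pool.Agent.Results.MP_e965d0_ag.SimpleShimuraVarieties

open Module NumberField TensorProduct Pool.Agent.H204R3.CM Pool.Agent.H194R3.CM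
  Pool.Agent.W437.HC Pool.Agent.W437.HD

/-- Rational matrices of size `2 g`. They act on the rational homology `ℚ ^ (2 g)` of the abelian
variety `A = ℂ ^ g / (ℤ ^ g + Z ℤ ^ g)`, which is mapped to the tangent space `ℂ ^ g` by
`perOne Z : (a, b) ↦ a + Z b`. -/
abbrev Mat (g : ℕ) : Type := Matrix (Fin g ⊕ Fin g) (Fin g ⊕ Fin g) ℚ

variable {g : ℕ} (Z : Matrix (Fin g) (Fin g) ℂ)

/-- The complex matrix `M` is the action on the tangent space of the endomorphism of `A` (up to
isogeny) given by the rational matrix `x`. -/
def ActsOnTangent (x : Mat g) (M : Matrix (Fin g) (Fin g) ℂ) : Prop :=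
  ∀ w : Fin g ⊕ Fin g → ℚ, perOne Z (x.mulVec w) = M.mulVec (perOne Z w)

/-- The rational matrix `x` is an endomorphism of `A` (up to isogeny). -/
def IsEndomorphism (x : Mat g) : Prop := ∃ M, ActsOnTangent Z x M

/-! ### One factor

An action of a division algebra `D` on a factor of `A` is given by a homomorphism `ρ` from `D` to the
rational matrices which does not necessarily respect the units: `ρ 1` is an idempotent endomorphism
of `A`, and the factor is the image of `ρ 1`. -/

section

variable {D : Type} [DivisionRing D] {F : Type} [Field F] [NumberField F]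

/-- The tangent vectors of the factor `(ρ 1) A` of `A` on which the field `F`, which acts on the
factor by `ρ ∘ j`, acts through the embedding `τ`. -/
def eigenspace (ρ : D →ₙ+* Mat g) (j : F →+* D) (τ : F →+* ℂ) : Submodule ℂ (Fin g → ℂ) where
  carrier := {u | ∀ a M, ActsOnTangent Z (ρ (j a)) M → M.mulVec u = τ a • u}
  zero_mem' := fun a M _ => by rw [Matrix.mulVec_zero, smul_zero]
  add_mem' := fun {x y} hx hy a M h => by rw [Matrix.mulVec_add, hx a M h, hy a M h, smul_add]
  smul_mem' := fun c x hx a M h => by rw [Matrix.mulVec_smul, hx a M h, smul_comm]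

/-- The division algebra `D` of degree `n` (so the dimension of `D` over its centre is `n ^ 2`) acts
by `ρ` on the factor `(ρ 1) A`, its centre contains the field `F` (embedded by `j`), twice the
dimension of the factor is `[F : ℚ] n N`, and the embedding `τ` of `F` occurs in the tangent space of
the factor with multiplicity `n * t τ`. -/
structure HasSignature [Algebra ℚ D] (ρ : D →ₙ+* Mat g) (j : F →+* D) (n N : ℕ)
    (t : (F →+* ℂ) → ℕ) : Prop where
  endo : ∀ x, IsEndomorphism Z (ρ x)
  degree : finrank ℚ D = n ^ 2 * finrank ℚ (Subalgebra.center ℚ D)
  central : ∀ a x, j a * x = x * j a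
  dim : (ρ 1).rank = finrank ℚ F * (n * N)
  signature : ∀ τ, finrank ℂ (eigenspace Z ρ j τ) = n * t τ

/-- The factor `B = (ρ 1) A` is simple as an abelian variety with an action of `D`: all nonzero
endomorphisms `x` of `B` which commute with `D` are invertible (up to isogeny). This holds if `B` is
simple, since then all nonzero endomorphisms are invertible. -/
def IsSimpleOver (ρ : D →ₙ+* Mat g) : Prop :=
  ∀ x, IsEndomorphism Z x → ρ 1 * x = x → x * ρ 1 = x → (∀ y, x * ρ y = ρ y * x) → x ≠ 0 →
    ∃ y, y * x = ρ 1

/-- The complex conjugate of an embedding. -/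
noncomputable def conj (τ : F →+* ℂ) : F →+* ℂ := (starRingEnd ℂ).comp τ

/-- The translate of an embedding by an automorphism of `ℂ`. -/
def translate (σ : ℂ ≃+* ℂ) (τ : F →+* ℂ) : F →+* ℂ := (σ : ℂ →+* ℂ).comp τ

/-- The translates of `t` separate the odd functions with values in the ring `R`. If `N = 1`, then
`t` is the indicator function of a CM type, and this condition for `R = ℂ` means that the CM type is
nondegenerate. -/
def Separates (R : Type) [CommRing R] (t : (F →+* ℂ) → ℕ) : Prop :=
  ∀ L : (F →+* ℂ) → R, (∀ τ, L (conj τ) = - L τ) →
    (∀ σ : ℂ ≃+* ℂ, ∑ τ, (t (translate σ τ) : R) * L τ = 0) → L = 0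

/-- The conditions on the signature of one factor for `N ≥ 3`. (a) There is an embedding `τ₀` such
that `t τ₀` is prime to `N`, `t τ₀ ≤ 2` or `N` is a power of a prime number, and `t` is `0` or `N`
outside `τ₀` and its complex conjugate. (b) `N` is a power of an odd prime number `p`, and `t` is
divisible by `p` outside one pair of conjugate embeddings and prime to `p` there. (c) `N` is a power
of an odd prime number `p`, and the translates of `t` modulo `p` separate the odd functions.
For `N = 1`: the CM type `t` is nondegenerate. -/
def IsGood (N : ℕ) (t : (F →+* ℂ) → ℕ) : Prop :=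
  (3 ≤ N ∧ ((∃ τ₀ : F →+* ℂ, Nat.Coprime (t τ₀) N ∧ (t τ₀ ≤ 2 ∨ IsPrimePow N) ∧
      ∀ τ, τ ≠ τ₀ → τ ≠ conj τ₀ → t τ = 0 ∨ t τ = N) ∨
    (∃ p c : ℕ, p.Prime ∧ p ≠ 2 ∧ N = p ^ c ∧
      ((∃ τ₀ : F →+* ℂ, ¬ p ∣ t τ₀ ∧ ∀ τ, τ ≠ τ₀ → τ ≠ conj τ₀ → p ∣ t τ) ∨
        Separates (ZMod p) t)))) ∨
  (N = 1 ∧ Separates ℂ t)

end

/-! ### The product -/

section

variable {ι : Type} {F : ι → Type} [∀ i, Field (F i)]

/-- The disjoint union of the sets of the complex embeddings of the fields `F i`. -/
abbrev Embeddings (F : ι → Type) [∀ i, Field (F i)] : Type := Σ i, (F i →+* ℂ)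

/-- The group of the permutations of the embeddings of the fields `F i` in `ℂ` which are induced by
the automorphisms of `ℂ`. It is isomorphic to the Galois group of the Galois closure of the
compositum of the fields `F i`. -/
def galoisGroup (F : ι → Type) [∀ i, Field (F i)] : Subgroup (Equiv.Perm (Embeddings F)) where
  carrier := {π | ∃ σ : ℂ ≃+* ℂ, ∀ y, π y = ⟨y.1, translate σ y.2⟩}
  mul_mem' := by
    rintro π π' ⟨σ, hσ⟩ ⟨σ', hσ'⟩
    exact ⟨σ'.trans σ, fun y => by rw [Equiv.Perm.mul_apply, hσ', hσ]; rfl⟩
  one_mem' := ⟨RingEquiv.refl ℂ, fun y => rfl⟩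
  inv_mem' := by
    rintro π ⟨σ, hσ⟩
    refine ⟨σ.symm, fun y => ?_⟩
    rw [Equiv.Perm.inv_eq_iff_eq, hσ]
    obtain ⟨i, τ⟩ := y
    refine congrArg (Sigma.mk i) ?_
    ext x
    exact (σ.apply_symm_apply (τ x)).symm

/-- The order of the stabilizer of the embedding `y` of `F i` in the Galois group of the Galois
closure of the compositum of the fields. It is the degree of this Galois closure over `F i`. -/
noncomputable def closureDegree (y : Embeddings F) : ℕ :=
  Nat.card {π : galoisGroup F // (π : Equiv.Perm (Embeddings F)) y = y}

/-- The translates of `t` separate the odd functions with values in the ring `R` on the union of the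
sets of the embeddings of the fields `F i` for the indices `i` in `S`. -/
def SeparatesOn [Fintype ι] [∀ i, NumberField (F i)] (R : Type) [CommRing R] (S : ι → Prop)
    (t : ∀ i, (F i →+* ℂ) → ℕ) : Prop :=
  ∀ L : Embeddings F → R, (∀ y, L ⟨y.1, conj y.2⟩ = - L y) → (∀ y, ¬ S y.1 → L y = 0) →
    (∀ σ : ℂ ≃+* ℂ, ∑ y : Embeddings F, (t y.1 (translate σ y.2) : R) * L y = 0) → L = 0

/-- The independence of the factors. The numbers `N i` are pairwise coprime or powers of the same
odd prime number, and: either `N i` is prime to the degree over `F i` of the Galois closure of the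
compositum of the fields; if there are several factors, then the translates of `t` separate the
complex odd functions; if an odd prime number `p` divides `N i` for several factors, then the
translates of `t` modulo `p` separate the odd functions modulo `p` for these factors; or the `F i`
are pairwise non-isomorphic imaginary quadratic fields, and the `N i` are odd. -/
structure IsIndependent [Fintype ι] [∀ i, NumberField (F i)] (N : ι → ℕ)
    (t : ∀ i, (F i →+* ℂ) → ℕ) : Prop where
  pairs : ∀ i k, i ≠ k → Nat.Coprime (N i) (N k) ∨
    ∃ p : ℕ, p.Prime ∧ p ≠ 2 ∧ (∃ a, N i = p ^ a) ∧ ∃ b, N k = p ^ b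
  fields : ((∀ y : Embeddings F, Nat.Coprime (N y.1) (closureDegree y)) ∧
      ((∃ i k : ι, i ≠ k) → SeparatesOn ℂ (fun _ => True) t) ∧
      ∀ p : ℕ, p.Prime → p ≠ 2 → (∃ i k : ι, i ≠ k ∧ p ∣ N i ∧ p ∣ N k) →
        SeparatesOn (ZMod p) (fun i => p ∣ N i) t) ∨
    ((∀ i, finrank ℚ (F i) = 2) ∧ (∀ i k, i ≠ k → IsEmpty (F i ≃+* F k)) ∧ ∀ i, ¬ 2 ∣ N i)

end

/-- The assumptions of the theorem. The period matrix is symmetric with positive definite imaginary
part, and `A` is the product, up to isogeny, of the abelian varieties `A i = (ρ i 1) A` with actions
`ρ i` of division algebras `D i` of degree `n i` whose centres contain the CM fields `F i`, with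
`2 dim (A i) = [F i : ℚ] (n i) (N i)`, and such that `F i` acts on the tangent space of `A i` with
the multiplicities `n i * t i τ`. Each `A i` is simple over `D i`, or the dimension of `D i` is
`2 dim (A i)` (this is the case of the simple Shimura varieties), and the signatures satisfy the
conditions of `IsGood` and of `IsIndependent`. -/
structure IsShimuraProduct {ι : Type} [Fintype ι] {D : ι → Type} [∀ i, DivisionRing (D i)]
    [∀ i, Algebra ℚ (D i)] {F : ι → Type} [∀ i, Field (F i)] [∀ i, NumberField (F i)]
    (ρ : ∀ i, D i →ₙ+* Mat g) (j : ∀ i, F i →+* D i) (n N : ι → ℕ)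
    (t : ∀ i, (F i →+* ℂ) → ℕ) : Prop where
  symm : Z.transpose = Z
  pos : (Z.map Complex.im).PosDef
  orth : ∀ i k, i ≠ k → ρ i 1 * ρ k 1 = 0
  sum : ∑ i, ρ i 1 = 1
  factor : ∀ i, HasSignature Z (ρ i) (j i) (n i) (N i) (t i)
  simple : ∀ i, IsSimpleOver Z (ρ i) ∨ finrank ℚ (D i) = (ρ i 1).rank
  good : ∀ i, IsGood (N i) (t i)
  ind : IsIndependent N t

/-! ### Tensors -/

section

variable {K V Γ : Type} [Field K] [AddCommGroup V] [Module K V] [Group Γ]

/-- The tensors: the multilinear forms on `V` in the `2 n` variables indexed by `Fin n × Fin 2`. -/
abbrev Tensor (K V : Type) [Field K] [AddCommGroup V] [Module K V] (n : ℕ) : Type :=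
  MultilinearMap K (fun _ : Fin n × Fin 2 => V) K

/-- A Tate tensor: a subgroup of finite index of the Galois group acts on the form through the
`n`-th power of the cyclotomic character. -/
def IsTateTensor (rep : Representation K Γ V) (χ : Γ →* K) {n : ℕ} (φ : Tensor K V n) : Prop :=
  ∃ Δ : Subgroup Γ, Δ.FiniteIndex ∧ ∀ s ∈ Δ, ∀ v, φ (fun x => rep s (v x)) = χ s ^ n * φ v

/-- The automorphism `x` of `V` multiplies all Tate tensors in `2 n` variables by `c ^ n`, for
all `n`. -/
def PreservesTateTensors (rep : Representation K Γ V) (χ : Γ →* K) (x : V ≃ₗ[K] V) (c : K) :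
    Prop :=
  ∀ (n : ℕ) (φ : Tensor K V n), IsTateTensor rep χ φ → ∀ v, φ (fun y => x (v y)) = c ^ n * φ v

/-- The automorphism `x` of `V` is a similitude with multiplier `c` of the form `ω`. -/
def IsSimilitude (ω : V →ₗ[K] V →ₗ[K] K) (x : V ≃ₗ[K] V) (c : K) : Prop :=
  ∀ v w, ω (x v) (x w) = c * ω v w

/-- The automorphism `x` of `V` commutes with `f`. -/
def CommutesWith (x : V ≃ₗ[K] V) (f : V →ₗ[K] V) : Prop := ∀ v, x (f v) = f (x v)

end

/-! ### The Tate module -/

/-- The Riemann form of `A = ℂ ^ g / (ℤ ^ g + Z ℤ ^ g)` on the rational homology `ℚ ^ (2 g)`: the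
standard symplectic form. -/
def riemannForm (g : ℕ) (v w : Fin g ⊕ Fin g → ℚ) : ℚ :=
  ∑ i, (w (Sum.inl i) * v (Sum.inr i) - w (Sum.inr i) * v (Sum.inl i))

/-- The Tate module `V_ℓ = ℚ_ℓ ⊗ H_1 (A, ℚ)`. -/
abbrev TateModule (ℓ g : ℕ) [Fact ℓ.Prime] : Type := ℚ_[ℓ] ⊗[ℚ] (Fin g ⊕ Fin g → ℚ)

/-- The tensor `φ` is the extension of the rational tensor `ψ(a₁ x₁, y₁) ⋯ ψ(a_n x_n, y_n)`, where
`ψ` is the Riemann form, the `a l` are endomorphisms of `A` and the variables are taken in the order
given by the permutation `π`. -/
def IsRationalProduct {ℓ : ℕ} [Fact ℓ.Prime] {n : ℕ} (φ : Tensor ℚ_[ℓ] (TateModule ℓ g) n) :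
    Prop :=
  ∃ (a : Fin n → Mat g) (π : Equiv.Perm (Fin n × Fin 2)), (∀ l, IsEndomorphism Z (a l)) ∧
    ∀ v : Fin n × Fin 2 → (Fin g ⊕ Fin g → ℚ), φ (fun x => 1 ⊗ₜ[ℚ] v x) =
      ((∏ l, riemannForm g ((a l).mulVec (v (π (l, 0)))) (v (π (l, 1))) : ℚ) : ℚ_[ℓ])

/-- The bilinear form `ω` on `V_ℓ` is the extension of the Riemann form. -/
def IsExtension {ℓ : ℕ} [Fact ℓ.Prime]
    (ω : TateModule ℓ g →ₗ[ℚ_[ℓ]] TateModule ℓ g →ₗ[ℚ_[ℓ]] ℚ_[ℓ]) : Prop :=
  ∀ u v : Fin g ⊕ Fin g → ℚ, ω (1 ⊗ₜ u) (1 ⊗ₜ v) = ((riemannForm g u v : ℚ) : ℚ_[ℓ])

/-- The endomorphism of the Tate module `V_ℓ` given by the rational matrix `a`. -/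
noncomputable def onTate (ℓ : ℕ) [Fact ℓ.Prime] (a : Mat g) :
    TateModule ℓ g →ₗ[ℚ_[ℓ]] TateModule ℓ g :=
  (Matrix.mulVecLin a).baseChange ℚ_[ℓ]

/-- Statement (1): the space of the Tate tensors is spanned by the rational tensors
`ψ(a₁ x₁, y₁) ⋯ ψ(a_n x_n, y_n)`, which do not depend on `ℓ`. -/
def HasCommonForm {ℓ : ℕ} [Fact ℓ.Prime] {Γ : Type} [Group Γ]
    (rep : Representation ℚ_[ℓ] Γ (TateModule ℓ g)) (χ : Γ →* ℚ_[ℓ]) : Prop :=
  ∀ (m : ℕ) (φ : Tensor ℚ_[ℓ] (TateModule ℓ g) m), IsTateTensor rep χ φ ↔
    φ ∈ Submodule.span ℚ_[ℓ] {φ' | IsRationalProduct Z φ'}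

/-- Statement (2): the automorphisms which preserve the Tate tensors up to the powers of a
multiplier are the `ℚ_ℓ`-points of the Lefschetz group `G` over `ℚ`: the similitudes of the Riemann
form which commute with all endomorphisms of `A`. -/
def GroupIsLefschetz {ℓ : ℕ} [Fact ℓ.Prime] {Γ : Type} [Group Γ]
    (rep : Representation ℚ_[ℓ] Γ (TateModule ℓ g)) (χ : Γ →* ℚ_[ℓ]) : Prop :=
  ∀ ω, IsExtension ω → ∀ x c, PreservesTateTensors rep χ x c ↔
    IsSimilitude ω x c ∧ ∀ a : Mat g, IsEndomorphism Z a → CommutesWith x (onTate ℓ a)

/-- **The common `ℚ`-form of the monodromy groups.** Let `A` be an abelian variety over a number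
field (or over a finitely generated field of characteristic zero), given over `ℂ` by the period
matrix `Z`, which is a product of points of simple Shimura varieties in the sense of
`IsShimuraProduct`. For a prime number `ℓ` let `rep` be the representation of the Galois group `Γ` on
the Tate module `V_ℓ = ℚ_ℓ ⊗ H_1 (A, ℚ)`, with the known properties (`IsTateModule`; `χ` is the
cyclotomic character, and `ℂ` is identified with an algebraic closure of `ℚ_ℓ`). Then the space of
the Tate tensors is spanned by the extensions of the rational tensors `IsRationalProduct`, which do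
not depend on `ℓ`, and the group of the automorphisms which preserve the Tate tensors up to the
powers of a multiplier is the group of the `ℚ_ℓ`-points of the Lefschetz group. -/
theorem result {ι : Type} [Fintype ι] {D : ι → Type} [∀ i, DivisionRing (D i)]
    [∀ i, Algebra ℚ (D i)] [∀ i, Module.Finite ℚ (D i)] {F : ι → Type} [∀ i, Field (F i)]
    [∀ i, NumberField (F i)] [∀ i, IsCMField (F i)] (ρ : ∀ i, D i →ₙ+* Mat g)
    (j : ∀ i, F i →+* D i) (n N : ι → ℕ) (t : ∀ i, (F i →+* ℂ) → ℕ)
    (hA : IsShimuraProduct Z ρ j n N t)
    (ℓ : ℕ) [Fact ℓ.Prime] [Algebra ℚ_[ℓ] ℂ] [Algebra.IsAlgebraic ℚ_[ℓ] ℂ]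
    {Γ : Type} [Group Γ] (rep : Representation ℚ_[ℓ] Γ (TateModule ℓ g)) (χ : Γ →* ℚ_[ℓ])
    (hrep : Pool.Agent.Y224.TS.St.IsTateModule (perOne Z) (riemannForm g) rep χ) :
    HasCommonForm Z rep χ ∧ GroupIsLefschetz Z rep χ := by
  obtain ⟨hsymm, hpos, horth, hsum, hD, hsimple, hgood, hind⟩ := hA
  have hB : ∀ i, Pool.Agent.H943.KP.Bk Z (ρ i) := fun i =>
    ⟨(hD i).endo, fun x hx h1 h2 h3 h0 => (hsimple i).elim (fun h => h x hx h1 h2 h3 h0)
      fun h => Pool.Agent.H943.KP.com_of_dim (ρ i) h h1 h2 h3 h0⟩
  have hgal : galoisGroup F = (@MulAction.toPermHom (RingAut ℂ) (Embeddings F) _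
      (Pool.Agent.H943.KP.emAct F)).range := by
    ext π
    constructor
    · rintro ⟨σ, hσ⟩
      exact ⟨σ, Equiv.ext fun y => (hσ y).symm⟩
    · rintro ⟨σ, rfl⟩
      exact ⟨σ, fun y => rfl⟩
  have M : Pool.Agent.Y4.K.Pol Z := ⟨hsymm, hpos⟩
  obtain ⟨c1, c2, c3⟩ := Pool.Agent.H943.KT.conds_all M hB horth hsum
    (fun i => (hD i).central) n N t (fun i => (hD i).degree) (fun i => (hD i).dim)
    (fun i => (hD i).signature) hgood hind.pairs (by
      rcases hind.fields with ⟨h1, h2, h3⟩ | h
      · refine Or.inl ⟨fun y => ?_, h2, h3⟩
        have h8 := h1 y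
        rw [closureDegree, hgal] at h8
        exact h8
      · exact Or.inr h)
  have hform : riemannForm g = Pool.Agent.H943.KT.riem g := by
    funext v w
    rw [riemannForm, Pool.Agent.H943.KT.riem_eq]
  rw [hform] at hrep
  have hR : ∀ (m : ℕ) (ψ : Tensor ℚ_[ℓ] (TateModule ℓ g) m), IsRationalProduct Z ψ ↔
      Pool.Agent.H943.KT.IsProd Z ψ := by
    intro m ψ
    unfold IsRationalProduct Pool.Agent.H943.KT.IsProd
    rw [hform]
    rfl
  refine ⟨fun m φ => ?_, fun ω hω x c => ?_⟩
  · have h1 := Pool.Agent.H943.KT.tate_iff M c1 c2 c3 hrep φ
    have h2 : {ψ : Tensor ℚ_[ℓ] (TateModule ℓ g) m | IsRationalProduct Z ψ} =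
        {ψ | Pool.Agent.H943.KT.IsProd Z ψ} := Set.ext fun ψ => hR m ψ
    rw [h2]
    exact h1
  · refine Pool.Agent.H943.KT.grp_iff M c1 c2 c3 hrep (ω := ω) (fun u v => ?_) x c
    rw [← hform]
    exact hω u v

end Pool.Agent.Results.MP_e965d0_ag.SimpleShimuraVarieties
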