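import Mathlib
import Pool.Agent.H298.Core.MotMain
import Pool.Graph.R_seed8.TH170.FT.CommonDefs
import Pool.Agent.H298.Core.Double

/-!
# Common `ℚ`-form of the `ℓ`-adic monodromy groups of abelian varieties which have one Frobenius
element in CM fields with irreducible odd part or primitive core

**In short.** Let `K` be a CM field of degree `2 g`, `K₀` its maximal real subfield and `2 ^ v`, `1
≤ v ≤ g`, the degree of the Galois closure of `K` over the Galois closure of `K₀` (typically `v =
g`). The theorem is for the Weil numbers `π` all powers of which generate `K`, in the following
cases (`FieldCriteria`), among others: **(a) `v > g / 3`; (b) the slopes of `π` have odd
denominators, for example `π` is ordinary, and `v > g / 4`, or `g` is the product of two prime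
numbers and `v > 1`, or `g` is prime, or `K` has few divisors in the sense of `FewDivisors`; (c) the
Galois group of `K₀` is doubly transitive, and `g` is odd, or `g - 1` is a prime number, or at least
`g` is none of the numbers `10, 16, 26, 28, 36, …` (`TwoGraphDegree`); or it is triply transitive,
for example the symmetric group, or the alternating group if `g ≥ 5`, `g ≥ 3`; and no norm of `π` to
an imaginary quadratic field is supersingular** (this is
so if `g` is odd and `π` is ordinary). The general hypothesis (`IsCoreWeil`) is explained below.

**Cores.** Let `X` be the set of the complex embeddings of the CM field `K`, `[K : ℚ] = 2 g`. The
automorphisms of `ℂ` which map all elements of `X` to themselves or to their complex conjugates are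
called sign changes. The first core of `φ : X` consists of the `ψ : X` which are moved by the same
sign changes as `φ`. If one uses all automorphisms which map the elements of the first core to
themselves or to their conjugates, one obtains the second core, inside of the first one, and so on
(`coreOf`). The cores of the same index have the same number `2 c` of elements, `c` divides `g`, and
the smallest such number `c` is the core number of `K`. It satisfies `c ≤ g / v`, and if a prime
number `q` divides the discriminant of `K`, but not the discriminant of the maximal real subfield,
then `q ^ c` divides the discriminant of `K`. `FewDivisors` says that all divisors of `g` which
satisfy these conditions are one or prime.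

**The abelian varieties.** Let `A` be an abelian variety over a number field, of any dimension and
with arbitrary endomorphisms. Suppose that at **one** place of good reduction, with a residue field
of `q = p ^ a` elements, the characteristic polynomial of the Frobenius element `γ` on the Tate
module is the product of the minimal polynomials of Weil numbers `π i` (`i` in a finite set) such
that each power `(π i) ^ n`, `n ≥ 1`, generates a CM field `K i`, and for each `K = K i` one of the
following conditions holds (`IsCoreWeil`).

* The rational functions on `X` which change their sign under complex conjugation are an irreducible
  representation of the automorphisms of `ℂ` (`OddIrreducible`), for example because the core number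
  of `K` is one.
* There is a core with `c` pairs of embeddings, and `c` is a prime number, or `c = [K : F]` for a
  subfield `F`, not totally real, such that the automorphisms of `ℂ` act doubly transitively on the
  extensions to `K` of an embedding of `F` (`PrimitiveCore`); and there is **no** subfield `F` with
  `[K : F] = c`, not totally real, in which the norm `N` of `π i` is supersingular
  (`SupersingularNorm`; this means that `N ^ 2 / q ^ c` is a root of unity).

The condition on the norms in the second case is necessary and sufficient for the absence of
relations between the conjugates of `π i` (`NormCriteria`); it is satisfied if `c = 2`, if `c` is
odd and the slopes of `π i` have odd denominators (for example in the ordinary case), and if all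
subfields `F` with `[K : F] = c` are totally real. There are no other conditions on `π i`, its
slopes, the decomposition of `p` in `K i`, the degree or the Galois group of `K i`. The fields `K i`
are pairwise independent (`PairwiseIndep`; no condition if there is only one field). So the
condition on `A` can be read off from one characteristic polynomial of Frobenius.

**The theorem. For all prime numbers `ℓ ≥ ℓ₀`** (`ℓ₀` is such that the Frobenius element has this
characteristic polynomial for all `ℓ ≥ ℓ₀`, for instance `ℓ₀ = p + 1`) **and all `m` each `ℓ`-adic
Tate class in `(H^1)^{⊗ 2 m}(m)` is a linear combination, with coefficients in `ℚ_ℓ`, of rational
forms on `W = H_1(A, ℚ)` which are Tate classes for all prime numbers `≥ ℓ₀`** and products of Hodge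
classes of degree two (`HasCommonForm`). The identity component of the Zariski closure of the image
of the Galois group is reductive and contains the homotheties; it is the group of the elements of
`GSp` which fix all Tate classes. **So there is an algebraic group over `ℚ`** (the identity
component of the Lefschetz group, which consists of the similitudes of the polarization form that
commute with the endomorphisms of `A`) **which becomes the connected monodromy group over `ℚ_ℓ` for
all `ℓ ≥ ℓ₀`**; this translation is the one of the earlier hand-ins and it is not formalized. The
data `GaloisData` are those of the earlier hand-ins: the Tate modules with the comparison maps, the
theorems of Faltings on endomorphisms and semisimplicity, the polarization, and the theorem of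
Deligne that Hodge classes are Tate classes.

The criteria (`AllCriteria`) are the cases (a), (b) and (c) above (`FieldCriteria`, `DoublyCriteria`), the facts
about the cores (`CoreFacts`) and about the norms (`NormCriteria`), and the independence of the
fields. A prime number `ℓ` separates `K i` from a number field `F` if `ℓ` divides the discriminant
of `K i` but not the one of its maximal real subfield and not the one of `F`. The fields `K i` are
pairwise independent if any two of them are separated by a prime number (in one direction). For
example, if `ℓ` divides the discriminant of a CM field `K` and `ℓ ^ 2` does not, then the theorem
holds for all `A` with one Frobenius element given by a Weil number `π` in `K` with `ℚ(π ^ n) = K`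
for all `n`.

**What was known.** The common form exists if the Mumford-Tate conjecture holds: for abelian
varieties of prime dimension, with complex multiplication, for generic Galois groups of one
Frobenius polynomial (Zarhin), for products of these (Vasiu, Commelin). In the library: abelian
varieties with a Frobenius element of almost all slope types (`TypicalFields`), absolutely
irreducible odd functions with slopes in general position (`SumsWithMotives`), reductions with
simple factors of odd prime dimensions (`PrimeReduction`). New here are the CM fields with primitive
cores, in all dimensions, with a condition on the norms which is necessary and sufficient; the case
that the degree of `K` is `2 g`, `g` prime, is the one where the core is the whole set of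
embeddings.

**The proof.** It is sufficient to show for each field `K` that the function `w`, the slope of `φ
(π)` minus one half, on the set `X` is not orthogonal to a nonzero space of odd functions which is
stable under the automorphisms of `ℂ`. If the odd functions are irreducible this is clear. Let `r`
be an element of such a space with integral values. By the sign changes one can cut `r` down; this
gives, by induction on the size of the support and on the index of the core, a relation which is
supported in one core. The automorphisms preserving the core act transitively on it. If it has `2 c`
elements with a prime number `c`, then a Sylow subgroup contains an element which has two orbits of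
length `c` on the core, exchanged by the complex conjugation. Since the cyclotomic polynomial is
irreducible, either `w (τ φ) = w (τ φ')` for all `τ` with two different `φ`, `φ'` of the core, or
the sums of `w` over the translates of one orbit are zero, and the orbit consists of the extensions
of an embedding of a subfield `F` with `[K : F] = c`, which is not totally real. In the doubly
transitive case the extensions of an embedding of `F` are one half of the core (a sign change moves
all of them or none), and an average over a stabilizer gives the same two alternatives. In the first
case `φ (π)` and `φ' (π)` have the same absolute values at all places of all conjugates, so they
differ by a root of unity, and a power of `π` does not generate `K`. In the second case the norm of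
`π` in `F` is supersingular. Conversely a supersingular norm is a relation, by Kronecker's theorem.
For the cases (a), (b) and (c) one uses that a sign change is determined by the first cores which it
moves, so that `2 ^ v ≤ 2 ^ (g / c)`, and that for a triply transitive group either the odd
functions are irreducible or the signs are given by a character of the group, so that `K` contains
an imaginary quadratic field. If the group is doubly transitive, let `V` be a space of odd functions
which is stable under the automorphisms, neither zero nor everything. The values of its reproducing
kernel at two embeddings in different pairs are `β` or `-β`, and `β ≠ 0`; the signs form a regular
two-graph on the `g` pairs, with the eigenvalues `r` on `V` and `-s` on the orthogonal space,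
`r s = g - 1`, `(r + s) dim V = g s`. If `g` is odd then `r` or `s` is even, and a descent modulo two
shows that the nonzero functions in one of the two spaces have no zeros; by the maximum principle
this is also true if `r` or `s` is `1` or `-1`. So this space has dimension one, and the signs of its
functions give an imaginary quadratic subfield. Without relations the Tate classes are generated in degree two, and by
the theorem of Faltings those of degree two come from endomorphisms, so from rational classes
(library).
-/

set_option autoImplicit false

namespace Pool.Agent.Results.MP_e965d0_ag.SmallCoreFields

open NumberField Module Pool.Agent.H977R3.CM Pool.Agent.TH170 Pool.Agent.H298.Core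

/-- The common `ℚ`-form for the abelian varieties with a Frobenius element whose characteristic
polynomial is the product of the minimal polynomials of Weil numbers `π i` for `p ^ a`. -/
def CommonFormHolds (p : ℕ) [Fact p.Prime] (a : ℕ) {I : Type} [Fintype I]
    (K : I → Type) [∀ i, Field (K i)] [∀ i, NumberField (K i)] [∀ i, IsCMField (K i)]
    (π : ∀ i, K i) : Prop :=
  ∀ (W T Γ : Type) [AddCommGroup W] [Module ℚ W] [FiniteDimensional ℚ W] [AddCommGroup T]
    [Module ℂ T] [Group Γ] (per : W →+ T) (ω₀ : W →ₗ[ℚ] W →ₗ[ℚ] ℚ)
    (D : ∀ (ℓ : ℕ) [Fact ℓ.Prime], FT.GaloisData per ω₀ Γ ℓ) (ℓ₀ : ℕ),
      (∀ (ℓ : ℕ) [Fact ℓ.Prime], ℓ₀ ≤ ℓ → FT.HasFrobenius (D ℓ).ρ (D ℓ).χ p a π) →
        FT.HasCommonForm D ℓ₀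

/-- **Common `ℚ`-form of the `ℓ`-adic monodromy groups, for all abelian varieties with one Frobenius
element whose Weil numbers lie in independent CM fields with irreducible odd part or primitive
core.** -/
theorem result :
    (∀ (p : ℕ) [Fact p.Prime] (a : ℕ), 0 < a → ∀ (I : Type) [Fintype I] (K : I → Type)
      [∀ i, Field (K i)] [∀ i, NumberField (K i)] [∀ i, IsCMField (K i)], PairwiseIndep K →
      ∀ π : ∀ i, K i, (∀ i, IsCoreWeil p a (π i)) → CommonFormHolds p a K π) ∧
    AllCriteria :=
  ⟨fun _ _ _ ha _ _ _ _ _ _ hK _ hπ _ _ _ _ _ _ _ _ _ _ _ D ℓ₀ hF =>
    FT.hasCommonForm_of D ℓ₀ fun ℓ _ hℓ => mtAbelian_core ha hK hπ ℓ _ _ _ _ _ _ _ _ _ _
      (D ℓ).realization (hF ℓ hℓ), allCriteria_hold⟩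

end Pool.Agent.Results.MP_e965d0_ag.SmallCoreFields
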